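import Pool.Agent.Run7.h118.TMFinal

/-! Inscribed rectangles of every aspect ratio in Jordan curves that consist of two weakly monotone
arcs. -/

set_option autoImplicit false

namespace Pool.Agent.Results.MP_7ec17a_gt.TwoMonotoneArcs

/-- Let `C` be a Jordan curve parametrised by `c : ℝ → ℂ` of period `1`. Suppose that `C` consists of
two arcs which are weakly monotone in one common direction: for some `w ≠ 0` and
`s₀ ≤ s₁ ≤ s₀ + 1` the function `Re (w c)` is nondecreasing on `[s₀, s₁]` and nonincreasing on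
`[s₁, s₀ + 1]`. Then for every `r > 0` the curve contains the vertices `a`, `a + v`,
`a + v + i r v`, `a + i r v` of a rectangle with side lengths `|v| > 0` and `r |v|`.

Nothing else is supposed about the two arcs: they need not be Lipschitz or rectifiable, they may
contain segments orthogonal to the direction, and they may form arbitrary cusps at the two ends. -/
theorem result (c : ℝ → ℂ) (hc : Continuous c) (hper : ∀ t, c (t + 1) = c t)
    (hinj : Set.InjOn c (Set.Ico 0 1)) (w : ℂ) (hw : w ≠ 0) (s₀ s₁ : ℝ) (h01 : s₀ ≤ s₁)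
    (h10 : s₁ ≤ s₀ + 1) (hm : MonotoneOn (fun t => (w * c t).re) (Set.Icc s₀ s₁))
    (ha : AntitoneOn (fun t => (w * c t).re) (Set.Icc s₁ (s₀ + 1)))
    (r : ℝ) (hr : 0 < r) :
    ∃ a v : ℂ, v ≠ 0 ∧ a ∈ Set.range c ∧ a + v ∈ Set.range c ∧
      a + v + Complex.I * (r : ℂ) * v ∈ Set.range c ∧
      a + Complex.I * (r : ℂ) * v ∈ Set.range c := by
  have hr2 : 0 < 1 + r ^ 2 := by positivity
  have hA0 : 0 < 2 * Real.arctan r := by
    have := Real.arctan_pos.2 hr
    linarith
  have hA1 : 2 * Real.arctan r < Real.pi := by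
    have := Real.arctan_lt_pi_div_two r
    linarith
  obtain ⟨z, d, hd, k1, k2, k3, k4⟩ :=
    Pool.Agent.Run7.h118.TG.Loc.weak hc hper hinj hw h01 h10 hm ha hA0 hA1
  have hrC : (1 + (r : ℂ) ^ 2) ≠ 0 := by
    have : ((1 + r ^ 2 : ℝ) : ℂ) ≠ 0 := by exact_mod_cast hr2.ne'
    push_cast at this
    exact this
  -- the exponential of the angle
  have hexp : Complex.exp ((2 * Real.arctan r : ℝ) * Complex.I) * (1 + (r : ℂ) ^ 2)
      = (1 + Complex.I * r) ^ 2 := by
    have hc2 : Real.cos (Real.arctan r) ^ 2 = 1 / (1 + r ^ 2) := Real.cos_sq_arctan r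
    have hs : Real.sin (Real.arctan r) = r * Real.cos (Real.arctan r) := by
      have h1 := Real.tan_arctan r
      have h2 : 0 < Real.cos (Real.arctan r) := Real.cos_arctan_pos r
      rw [Real.tan_eq_sin_div_cos, div_eq_iff h2.ne'] at h1
      exact h1
    have h3 : Complex.exp ((2 * Real.arctan r : ℝ) * Complex.I)
        = (Real.cos (Real.arctan r) + Real.sin (Real.arctan r) * Complex.I) ^ 2 := by
      rw [show ((2 * Real.arctan r : ℝ) : ℂ) * Complex.I
        = (Real.arctan r : ℂ) * Complex.I + (Real.arctan r : ℂ) * Complex.I by push_cast; ring,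
        Complex.exp_add, Complex.exp_mul_I, ← Complex.ofReal_cos, ← Complex.ofReal_sin]
      ring
    rw [h3, hs]
    have h4 : ((Real.cos (Real.arctan r) : ℝ) : ℂ) ^ 2 * (1 + (r : ℂ) ^ 2) = 1 := by
      have : Real.cos (Real.arctan r) ^ 2 * (1 + r ^ 2) = 1 := by
        rw [hc2]; field_simp
      exact_mod_cast this
    rw [Complex.ofReal_mul]
    linear_combination (1 + (r : ℂ) * Complex.I) ^ 2 * h4
  set e : ℂ := Complex.exp ((2 * Real.arctan r : ℝ) * Complex.I) with he
  have hI := Complex.I_sq
  have e1 : Complex.I * (r : ℂ) * ((1 + e) * d) = (e - 1) * d := by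
    apply mul_right_cancel₀ hrC
    linear_combination (d * (Complex.I * r - 1)) * hexp + (d * ((r : ℂ) ^ 3 * Complex.I + r ^ 2)) * hI
  refine ⟨z - e * d, (1 + e) * d, ?_, k4, ?_, ?_, ?_⟩
  · refine mul_ne_zero (fun h => ?_) hd
    have h5 : e = -1 := by linear_combination h
    rw [h5] at hexp
    have h6 : (2 : ℂ) + 2 * Complex.I * r = 0 := by
      linear_combination (-1 : ℂ) * hexp - (r : ℂ) ^ 2 * hI
    have h7 := congrArg Complex.re h6
    simp at h7
  · rw [show z - e * d + (1 + e) * d = z + d by ring]; exact k1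
  · rw [show z - e * d + (1 + e) * d + Complex.I * (r : ℂ) * ((1 + e) * d)
      = z - e * d + (1 + e) * d + (e - 1) * d by rw [e1],
      show z - e * d + (1 + e) * d + (e - 1) * d = z + e * d by ring]
    exact k3
  · rw [e1, show z - e * d + (e - 1) * d = z - d by ring]; exact k2

end Pool.Agent.Results.MP_7ec17a_gt.TwoMonotoneArcs
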